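import Pool.Agent.PLX.StmtsB

/-!
# Squad PLX, row LAD: the adaptive ladder
-/

set_option autoImplicit false

namespace Pool.Agent.PLX.H30

open Module

theorem dom_self {A : Type} [AddCommGroup A] [Module ℚ A] {E : Type} [NormedAddCommGroup E]
    [NormedSpace ℝ E] {Φ : A →+ ℂ} {f : A →+ E} {G : AddSubgroup A} {d : ℕ} {M T : ℝ}
    (h : Dsc f G) (hf : FiniteDimensional ℚ (sp G)) (hr : finrank ℚ (sp G) ≤ d) (hM : 1 ≤ M)
    (hP : Ppr Φ f G T) : Dom d M T Φ f G := by
  refine ⟨A, inferInstance, inferInstance, E, inferInstance, inferInstance, Φ, f, G, h, hf, hr, hP,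
    fun x hx => ⟨x, hx, le_refl _, rfl⟩, ?_⟩
  intro r _
  have h0 : (0 : ℝ) ≤ cnt f G r := Nat.cast_nonneg _
  nlinarith

theorem lad (hcov : CovStmt) (hprx : PrxStmt) : LadStmt := by
  intro d
  induction d with
  | zero =>
    intro C₀ a
    refine ⟨0, ?_⟩
    intro A _ _ E _ _ Φ f G L h hf hr hL
    refine ⟨0, le_refl _, dom_self h hf hr (by simp) ?_⟩
    intro x hx _ _
    have h1 : finrank ℚ (sp G) = 0 := Nat.le_zero.mp hr
    have h2 : sp G = ⊥ := Submodule.finrank_eq_zero.mp h1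
    have h3 : x ∈ sp G := le_sp hx
    rw [h2] at h3
    exact (Submodule.mem_bot ℚ).mp h3
  | succ d ih =>
    intro C₀ a
    obtain ⟨C₃', hC⟩ := ih C₀ (a + (3 + a * C₀) * (d + 1))
    refine ⟨(3 + a * C₀) * (d + 1) + C₃', ?_⟩
    intro A _ _ E _ _ Φ f G L h hf hr hL
    by_cases hP : Ppr Φ f G ((L ^ (a + 0)) ^ C₀)
    · exact ⟨0, Nat.zero_le _, dom_self h hf hr (by simp) hP⟩
    · unfold Ppr at hP
      push Not at hP
      obtain ⟨z, hz, hzT, hz0, hzne⟩ := hP
      obtain ⟨A', i1, i2, E', i3, i4, Φ', f', G', h', hf', hr', hlift, hcnt⟩ :=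
        hprx A E Φ f G d z h hf hr hz hzne hz0
      obtain ⟨c', hc', A2, j1, j2, E2, j3, j4, Φ2, f2, G2, h2, hf2, hr2, hP2, hlift2, hcnt2⟩ :=
        hC A' E' Φ' f' G' L h' hf' hr' hL
      refine ⟨(3 + a * C₀) * (d + 1) + c', by omega, A2, j1, j2, E2, j3, j4, Φ2, f2, G2, h2, hf2,
        by omega, ?_, ?_, ?_⟩
      · rw [← add_assoc]
        exact hP2
      · intro x hx
        obtain ⟨x', hx', h5, h6⟩ := hlift x hx
        obtain ⟨x2, hx2, h7, h8⟩ := hlift2 x' hx'
        exact ⟨x2, hx2, h7.trans h5, h8.trans h6⟩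
      · intro r hr1
        have hL1 : (1 : ℝ) ≤ L := by linarith
        set T : ℝ := (L ^ (a + 0)) ^ C₀ with hT
        have hT1 : T = L ^ (a * C₀) := by rw [hT, add_zero, ← pow_mul]
        have hT0 : 1 ≤ T := by rw [hT1]; exact one_le_pow₀ hL1
        have k1 : (cnt f2 G2 r : ℝ) ≤ L ^ c' * cnt f' G' r := hcnt2 r hr1
        have k2 : (cnt f' G' r : ℝ) ≤ cnt f G (r + T) := by
          have := (hcnt r (by linarith)).trans (cnt_mono h (add_le_add (le_refl r) hzT))
          exact_mod_cast this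
        have k3 : finrank ℚ (bs f G (r + T)) ≤ d + 1 :=
          (Submodule.finrank_mono (bs_le_sp h)).trans hr
        have k4 := hcov A E f G (r + T) r (d + 1) h (by linarith) (by linarith) k3
        have k5 : 1 + 2 * (r + T) / r ≤ L ^ (3 + a * C₀) := by
          have e1 : 2 * (r + T) / r ≤ 2 + 2 * T := by
            rw [div_le_iff₀ (by linarith)]
            nlinarith
          have e2 : (8 : ℝ) ≤ L ^ 3 := by
            calc (8 : ℝ) = 2 ^ 3 := by norm_num
              _ ≤ L ^ 3 := pow_le_pow_left₀ (by norm_num) hL 3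
          rw [pow_add, ← hT1]
          nlinarith
        have k6 : (1 + 2 * (r + T) / r) ^ (d + 1) ≤ L ^ ((3 + a * C₀) * (d + 1)) := by
          rw [pow_mul]
          refine pow_le_pow_left₀ ?_ k5 _
          have : 0 ≤ 2 * (r + T) / r := div_nonneg (by linarith) (by linarith)
          linarith
        have k7 : (0 : ℝ) ≤ cnt f G r := Nat.cast_nonneg _
        have k8 : (0 : ℝ) ≤ L ^ c' := by positivity
        calc (cnt f2 G2 r : ℝ) ≤ L ^ c' * cnt f' G' r := k1
          _ ≤ L ^ c' * ((1 + 2 * (r + T) / r) ^ (d + 1) * cnt f G r) :=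
              mul_le_mul_of_nonneg_left (k2.trans k4) k8
          _ ≤ L ^ c' * (L ^ ((3 + a * C₀) * (d + 1)) * cnt f G r) :=
              mul_le_mul_of_nonneg_left (mul_le_mul_of_nonneg_right k6 k7) k8
          _ = L ^ ((3 + a * C₀) * (d + 1) + c') * cnt f G r := by rw [pow_add]; ring

end Pool.Agent.PLX.H30

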